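import Mathlib

/-!
Norm forms.
-/

set_option autoImplicit false
set_option linter.unusedSectionVars false

namespace Pool.Agent.L5helper4.NT

open Finset NumberField Module

section

variable {F E : Type} [Field F] [NumberField F] [Field E] [NumberField E] [Algebra F E] {m : ℕ}

/-- the element with given coordinates -/
noncomputable def el (b : Basis (Fin m) F E) (z : Fin m → F) : E := ∑ k, z k • b k

/-- the norm form -/
noncomputable def nf (b : Basis (Fin m) F E) (z : Fin m → F) : F := Algebra.norm F (el b z)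

theorem el_smul (b : Basis (Fin m) F E) (c : F) (z : Fin m → F) :
    el b (fun k => c * z k) = c • el b z := by
  unfold el
  rw [smul_sum]
  exact sum_congr rfl fun k _ => by rw [smul_smul]

theorem nf_smul (b : Basis (Fin m) F E) (c : F) (z : Fin m → F) :
    nf b (fun k => c * z k) = c ^ m * nf b z := by
  unfold nf
  rw [el_smul, Algebra.smul_def, map_mul, Algebra.norm_algebraMap, finrank_eq_card_basis b,
    Fintype.card_fin]

theorem el_inj (b : Basis (Fin m) F E) {z z' : Fin m → F} (h : el b z = el b z') : z = z' := by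
  have h1 : b.equivFun.symm z = b.equivFun.symm z' := by
    rw [Basis.equivFun_symm_apply, Basis.equivFun_symm_apply]
    exact h
  exact b.equivFun.symm.injective h1

theorem nf_ne (b : Basis (Fin m) F E) {z : Fin m → F} (h : nf b z ≠ 0) : z ≠ 0 := by
  rintro rfl
  apply h
  unfold nf el
  have h1 : ∑ k, (0 : Fin m → F) k • b k = 0 := by simp
  have : FiniteDimensional F E := Module.Finite.of_basis b
  rw [h1]
  exact Algebra.norm_zero

theorem norm_nf (b : Basis (Fin m) F E) (z : Fin m → F) :
    Algebra.norm ℚ (el b z) = Algebra.norm ℚ (nf b z) := by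
  unfold nf
  rw [Algebra.norm_norm]

theorem blk (b : Basis (Fin m) F E) (M : ℕ) : ∃ (M' : ℕ) (C : ℝ), M' ≠ 0 ∧ 1 ≤ C ∧
    ∀ (z : Fin m → F) (X : ℝ), 1 ≤ X → (∀ k, ∃ x : 𝓞 F, (x : F) = (M : F) * z k) →
      (∀ (w : InfinitePlace F) k, w (z k) ≤ X) → ∃ ζ : 𝓞 E, (ζ : E) = ((M * M' : ℕ) : E) * el b z ∧
        ∀ w : InfinitePlace E, w (ζ : E) ≤ C * X := by
  classical
  obtain ⟨y, hy, hint⟩ := exists_integral_multiples ℤ ℚ (univ.image b)
  have hint' : ∀ k, IsIntegral ℤ ((y.natAbs : E) * b k) := by
    intro k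
    have h1 := hint (b k) (mem_image_of_mem _ (mem_univ k))
    rw [zsmul_eq_mul] at h1
    rcases Int.natAbs_eq y with h | h
    · have : ((y.natAbs : ℕ) : E) = ((y : ℤ) : E) := by
        conv_rhs => rw [h]
        simp
      rw [this]
      exact h1
    · have : ((y.natAbs : ℕ) : E) = -((y : ℤ) : E) := by
        conv_rhs => rw [h]
        simp
      rw [this, neg_mul]
      exact h1.neg
  choose β hβ using fun k => (⟨⟨_, hint' k⟩, rfl⟩ : ∃ β : 𝓞 E, (β : E) = (y.natAbs : E) * b k)
  set C : ℝ := 1 + ∑ w : InfinitePlace E, ∑ k, M * w (β k : E) with hC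
  have hC0 : ∀ w : InfinitePlace E, ∑ k, M * w (β k : E) ≤ C := by
    intro w
    have h1 := single_le_sum (f := fun w : InfinitePlace E => ∑ k, M * w (β k : E))
      (fun w _ => sum_nonneg fun k _ => mul_nonneg (Nat.cast_nonneg _) (apply_nonneg _ _))
      (mem_univ w)
    have h1' : ∑ k, M * w (β k : E) ≤ ∑ w : InfinitePlace E, ∑ k, M * w (β k : E) := h1
    linarith
  have hC1 : 1 ≤ C := by
    have : 0 ≤ ∑ w : InfinitePlace E, ∑ k, M * w (β k : E) :=
      sum_nonneg fun w _ => sum_nonneg fun k _ =>
        mul_nonneg (Nat.cast_nonneg _) (apply_nonneg _ _)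
    linarith
  refine ⟨y.natAbs, C, Int.natAbs_ne_zero.2 hy, hC1, fun z X hX hz hw => ?_⟩
  choose x hx using hz
  have hel : ((M * y.natAbs : ℕ) : E) * el b z = ∑ k, algebraMap F E (x k) * (β k : E) := by
    unfold el
    rw [mul_sum]
    refine sum_congr rfl fun k _ => ?_
    rw [hx, hβ, Algebra.smul_def, map_mul, map_natCast]
    push_cast
    ring
  refine ⟨⟨((M * y.natAbs : ℕ) : E) * el b z, ?_⟩, rfl, fun w => ?_⟩
  · rw [hel]
    refine IsIntegral.sum _ fun k _ => IsIntegral.mul ?_ (β k).2
    exact ((x k).2).map (algebraMap F E).toIntAlgHom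
  · show w (((M * y.natAbs : ℕ) : E) * el b z) ≤ _
    rw [hel]
    calc w (∑ k, algebraMap F E (x k) * (β k : E)) ≤
          ∑ k, w (algebraMap F E (x k) * (β k : E)) := w.1.sum_le _ _
      _ ≤ ∑ k, (M * w (β k : E)) * X := by
          refine sum_le_sum fun k _ => ?_
          rw [map_mul]
          have h1 : w (algebraMap F E (x k)) = (w.comap (algebraMap F E)) (x k : F) := rfl
          have h2 : (w.comap (algebraMap F E)) (x k : F) ≤ M * X := by
            rw [hx, map_mul]
            have h3 : (w.comap (algebraMap F E)) ((M : ℕ) : F) = M := by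
              simp
            rw [h3]
            exact mul_le_mul_of_nonneg_left (hw _ k) (Nat.cast_nonneg _)
          rw [h1]
          calc (w.comap (algebraMap F E)) (x k : F) * w (β k : E) ≤ (M * X) * w (β k : E) :=
                mul_le_mul_of_nonneg_right h2 (apply_nonneg _ _)
            _ = _ := by ring
      _ = (∑ k, M * w (β k : E)) * X := by rw [sum_mul]
      _ ≤ C * X := mul_le_mul_of_nonneg_right (hC0 w) (by linarith)

end

end Pool.Agent.L5helper4.NT
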