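import Mathlib
import Pool.Agent.R366.NF.Div

/-!
Counting: trees, tuples of integers with bounded norms, divisors.
-/

set_option autoImplicit false
set_option linter.unusedSectionVars false

namespace Pool.Agent.L5helper4.NT

open Finset NumberField

/-- a tree in which each vertex has at most `K` children -/
theorem tree {q : ℕ} {B : Fin q → Type} [∀ i, DecidableEq (B i)] (K : ℕ) (S : Finset (∀ i, B i))
    (h : ∀ i, ∀ f ∈ S, ((S.filter fun g => ∀ j < i, g j = f j).image fun g => g i).card ≤ K) :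
    S.card ≤ K ^ q := by
  classical
  set R : ℕ → (∀ i, B i) → ∀ i, Option (B i) := fun t g i => if i.1 < t then some (g i) else none
    with hR
  have hRe : ∀ t g g', R t g = R t g' ↔ ∀ i : Fin q, i.1 < t → g i = g' i := by
    intro t g g'
    constructor
    · intro he i hi
      have h1 := congrFun he i
      simp only [hR, if_pos hi] at h1
      exact Option.some_injective _ h1
    · intro he
      funext i
      by_cases hi : i.1 < t
      · simp only [hR, if_pos hi, he i hi]
      · simp only [hR, if_neg hi]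
  have key : ∀ t, t ≤ q → (S.image (R t)).card ≤ K ^ t := by
    intro t
    induction t with
    | zero =>
      intro _
      rw [pow_zero, card_le_one]
      intro a ha b hb
      obtain ⟨g, -, rfl⟩ := mem_image.1 ha
      obtain ⟨g', -, rfl⟩ := mem_image.1 hb
      rw [hRe]
      intro i hi
      exact absurd hi (Nat.not_lt_zero _)
    | succ t ih =>
      intro ht
      have ih' := ih (by omega)
      set i₀ : Fin q := ⟨t, by omega⟩ with hi₀
      set τ : (∀ i, Option (B i)) → ∀ i, Option (B i) := fun u i => if i.1 < t then u i else none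
        with hτ
      have hτR : ∀ g, τ (R (t + 1) g) = R t g := by
        intro g
        funext i
        by_cases hi : i.1 < t
        · simp only [hτ, hR, if_pos hi, if_pos (Nat.lt_succ_of_lt hi)]
        · simp only [hτ, hR, if_neg hi]
      have h1 := card_le_mul_card_image_of_maps_to (s := S.image (R (t + 1)))
        (t := S.image (R t)) (f := τ) (fun u hu => by
          obtain ⟨g, hg, rfl⟩ := mem_image.1 hu
          rw [hτR]
          exact mem_image_of_mem _ hg) K (fun u hu => by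
          obtain ⟨f, hf, rfl⟩ := mem_image.1 hu
          refine le_trans ?_ (h i₀ f hf)
          refine card_le_card_of_injOn (fun u => (u i₀).getD (f i₀)) ?_ ?_
          · intro u hu
            rw [mem_coe, mem_filter] at hu
            obtain ⟨hu1, hu2⟩ := hu
            obtain ⟨g, hg, rfl⟩ := mem_image.1 hu1
            rw [hτR, hRe] at hu2
            rw [mem_coe, mem_image]
            refine ⟨g, mem_filter.2 ⟨hg, fun j hj => hu2 j hj⟩, ?_⟩
            simp [hR, hi₀]
          · intro u hu u' hu' huu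
            rw [mem_coe, mem_filter] at hu hu'
            obtain ⟨hu1, hu2⟩ := hu
            obtain ⟨hu1', hu2'⟩ := hu'
            obtain ⟨g, hg, rfl⟩ := mem_image.1 hu1
            obtain ⟨g', hg', rfl⟩ := mem_image.1 hu1'
            rw [hτR] at hu2 hu2'
            rw [hRe]
            intro i hi
            by_cases hi2 : i.1 < t
            · exact (hRe t g g').1 (hu2.trans hu2'.symm) i hi2
            · have hi3 : i = i₀ := Fin.ext (by simp only [hi₀]; omega)
              subst hi3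
              simpa [hR, hi₀] using huu)
      calc (S.image (R (t + 1))).card ≤ K * (S.image (R t)).card := h1
        _ ≤ K * K ^ t := Nat.mul_le_mul_left _ ih'
        _ = K ^ (t + 1) := by rw [pow_succ, mul_comm]
  have h2 := key q le_rfl
  rwa [card_image_of_injOn] at h2
  intro g _ g' _ hgg
  funext i
  exact (hRe q g g').1 hgg i i.2

section

variable {F : Type} [Field F] [NumberField F]

theorem dvd_norm' (x : 𝓞 F) : x ∣ ((Algebra.norm ℤ x : ℤ) : 𝓞 F) :=
  Pool.Agent.R366.NF.dvd_norm_int x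

theorem norm_ne {x : 𝓞 F} (hx : x ≠ 0) : Algebra.norm ℤ x ≠ 0 := Algebra.norm_ne_zero_iff.2 hx

/-- tuples of integers with bounded conjugates and bounded product of the norms -/
theorem tuples (n : ℕ) {δ : ℝ} (hδ : 0 < δ) : ∃ C : ℝ, 0 < C ∧ ∀ X Y : ℝ, 1 ≤ Y → Y ≤ X →
    ∀ T : Finset (Fin n → 𝓞 F), (∀ x ∈ T, (∀ i, x i ≠ 0) ∧ (∀ i, ∀ w : InfinitePlace F,
      w (x i : F) ≤ X) ∧ |((∏ i, Algebra.norm ℤ (x i) : ℤ) : ℝ)| ≤ Y) →
      (T.card : ℝ) ≤ C * Y * X ^ δ := by
  classical
  obtain ⟨C, hC, h⟩ := Pool.Agent.R366.NF.few_divisors (E := F) (δ := δ / (n + 1)) (by positivity)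
  refine ⟨(C + 1) ^ n, by positivity, fun X Y hY hYX T hT => ?_⟩
  have hX : 1 ≤ X := hY.trans hYX
  set K : ℕ := ⌊C * X ^ (δ / (n + 1))⌋₊ with hK
  have hfib : ∀ N₀ ∈ T.image fun x => (∏ i, Algebra.norm ℤ (x i)).natAbs,
      (T.filter fun x => (∏ i, Algebra.norm ℤ (x i)).natAbs = N₀).card ≤ K ^ n := by
    intro N₀ hN₀
    obtain ⟨x₀, hx₀, hx₀'⟩ := mem_image.1 hN₀
    have hN : N₀ ≠ 0 := by
      rw [← hx₀', Int.natAbs_ne_zero, prod_ne_zero_iff]
      exact fun i _ => norm_ne ((hT x₀ hx₀).1 i)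
    have hNX : |((N₀ : ℤ) : ℝ)| ≤ X := by
      have h1 := (hT x₀ hx₀).2.2
      rw [← hx₀', Int.natCast_natAbs, Int.cast_abs, abs_abs]
      exact h1.trans hYX
    refine tree K _ fun i f hf => ?_
    rw [hK]
    refine Nat.le_floor ?_
    refine h X hX (N₀ : ℤ) (by exact_mod_cast hN) hNX _ fun β hβ => ?_
    obtain ⟨g, hg, rfl⟩ := mem_image.1 hβ
    rw [mem_filter, mem_filter] at hg
    obtain ⟨⟨hg1, hg2⟩, -⟩ := hg
    refine ⟨?_, (hT g hg1).2.1 i⟩
    have h1 : (Algebra.norm ℤ (g i)) ∣ (N₀ : ℤ) := by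
      rw [← hg2, Int.dvd_natAbs]
      exact dvd_prod_of_mem _ (mem_univ i)
    refine (dvd_norm' (g i)).trans ?_
    exact_mod_cast (Int.cast_dvd_cast (α := 𝓞 F) _ _ h1)
  have himg : (T.image fun x => (∏ i, Algebra.norm ℤ (x i)).natAbs).card ≤ ⌊Y⌋₊ := by
    have h1 : (T.image fun x => (∏ i, Algebra.norm ℤ (x i)).natAbs) ⊆ Finset.Icc 1 ⌊Y⌋₊ := by
      intro N₀ hN₀
      obtain ⟨x₀, hx₀, rfl⟩ := mem_image.1 hN₀
      rw [mem_Icc]
      constructor
      · rw [Nat.one_le_iff_ne_zero, Int.natAbs_ne_zero, prod_ne_zero_iff]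
        exact fun i _ => norm_ne ((hT x₀ hx₀).1 i)
      · refine Nat.le_floor ?_
        rw [Nat.cast_natAbs, Int.cast_abs]
        exact (hT x₀ hx₀).2.2
    have h2 := card_le_card h1
    rwa [Nat.card_Icc, Nat.add_sub_cancel] at h2
  have h1 := card_le_mul_card_image T (K ^ n) hfib
  have h2 : T.card ≤ K ^ n * ⌊Y⌋₊ := h1.trans (Nat.mul_le_mul_left _ himg)
  have h3 : (K : ℝ) ≤ (C + 1) * X ^ (δ / (n + 1)) := by
    have h4 : (K : ℝ) ≤ C * X ^ (δ / (n + 1)) := Nat.floor_le (by positivity)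
    refine h4.trans ?_
    have : 0 ≤ X ^ (δ / (n + 1)) := by positivity
    nlinarith
  have h5 : (⌊Y⌋₊ : ℝ) ≤ Y := Nat.floor_le (by linarith)
  calc (T.card : ℝ) ≤ ((K ^ n * ⌊Y⌋₊ : ℕ) : ℝ) := by exact_mod_cast h2
    _ = (K : ℝ) ^ n * ⌊Y⌋₊ := by push_cast; ring
    _ ≤ ((C + 1) * X ^ (δ / (n + 1))) ^ n * Y := by
        gcongr
    _ = (C + 1) ^ n * Y * (X ^ (δ / (n + 1))) ^ n := by rw [mul_pow]; ring
    _ ≤ (C + 1) ^ n * Y * X ^ δ := by
        have h6 : (X ^ (δ / (n + 1))) ^ n ≤ X ^ δ := by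
          rw [← Real.rpow_natCast, ← Real.rpow_mul (by linarith)]
          refine Real.rpow_le_rpow_of_exponent_le hX ?_
          rw [div_mul_eq_mul_div, div_le_iff₀ (by positivity)]
          nlinarith
        gcongr

end

end Pool.Agent.L5helper4.NT
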