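import Mathlib
import Pool.Agent.R366.NF.Div

/-!
A lower bound for heights.
-/

set_option autoImplicit false
set_option linter.unusedSectionVars false

namespace Pool.Agent.L5helper4.NT

open Finset NumberField

variable {F : Type} [Field F] [NumberField F]

theorem height_ge {ι : Type} [Finite ι] (y : ι → F) (hy : y ≠ 0) (f : InfinitePlace F → ℝ)
    (hf : ∀ w, 0 ≤ f w) {c : F} (hc : c ≠ 0) (hw : ∀ w : InfinitePlace F, ∃ i, f w ≤ w (y i))
    (hv : ∀ v : FinitePlace F, ∃ i, v c ≤ v (y i)) :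
    (∏ w : InfinitePlace F, f w ^ w.mult) * ∏ᶠ v : FinitePlace F, v c ≤ Height.mulHeight y := by
  obtain ⟨i₀, hi₀⟩ := Function.ne_iff.1 hy
  set x : {i // y i ≠ 0} → F := y ∘ Subtype.val with hx
  have hx0 : x ≠ 0 := Function.ne_iff.2 ⟨⟨i₀, hi₀⟩, hi₀⟩
  have : Nonempty {i // y i ≠ 0} := ⟨⟨i₀, hi₀⟩⟩
  refine le_trans ?_ (Height.mulHeight_comp_le (Subtype.val : {i // y i ≠ 0} → ι) y)
  rw [← hx, NumberField.mulHeight_eq hx0]
  have hb : ∀ v : AbsoluteValue F ℝ, BddAbove (Set.range fun i => v (x i)) := fun v =>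
    (Set.finite_range _).bddAbove
  refine mul_le_mul (prod_le_prod (fun w _ => pow_nonneg (hf w) _) fun w _ =>
    pow_le_pow_left₀ (hf w) ?_ _) ?_ (finprod_nonneg fun v => apply_nonneg _ _)
    (prod_nonneg fun w _ => pow_nonneg (Real.iSup_nonneg fun i => apply_nonneg _ _) _)
  · obtain ⟨i, hi⟩ := hw w
    by_cases h0 : y i = 0
    · rw [h0, map_zero] at hi
      exact hi.trans (Real.iSup_nonneg fun i => apply_nonneg _ _)
    · exact hi.trans (le_ciSup (hb w.1) ⟨i, h0⟩)
  · refine finprod_le_finprod (FinitePlace.hasFiniteMulSupport hc) (fun v => apply_nonneg _ _)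
      (.iSup fun i => FinitePlace.hasFiniteMulSupport i.2) fun v => ?_
    obtain ⟨i, hi⟩ := hv v
    have h0 : y i ≠ 0 := by
      intro h0
      rw [h0, map_zero] at hi
      exact absurd hi (not_le.2 (FinitePlace.pos_iff.2 hc))
    exact hi.trans (le_ciSup (hb v.1) ⟨i, h0⟩)

theorem exists_int {u : F} (hu : ∀ v : FinitePlace F, v u ≤ 1) : ∃ a : 𝓞 F, (a : F) = u := by
  have h := IsDedekindDomain.HeightOneSpectrum.mem_integers_of_valuation_le_one (R := 𝓞 F) F u
    (fun v => by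
      have h1 := hu (FinitePlace.mk v)
      rw [FinitePlace.mk_apply, NumberField.FinitePlace.norm_embedding'] at h1
      exact (WithZeroMulInt.toNNReal_le_one_iff
        (NumberField.HeightOneSpectrum.one_lt_absNorm_nnreal v)).1 (by exact_mod_cast h1))
  obtain ⟨a, ha⟩ := h
  exact ⟨a, ha⟩

/-- the finite part of the height of a positive integer -/
theorem finprod_nat {m : ℕ} (hm : m ≠ 0) :
    ∏ᶠ v : FinitePlace F, v (m : F) = ((m : ℝ) ^ Module.finrank ℚ F)⁻¹ := by
  rw [FinitePlace.prod_eq_inv_abs_norm]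
  · have h1 : Algebra.norm ℚ ((m : ℚ) • (1 : F)) = (m : ℚ) ^ Module.finrank ℚ F := by
      rw [Algebra.smul_def, mul_one, Algebra.norm_algebraMap]
    have h2 : ((m : ℚ) • (1 : F)) = (m : F) := by
      rw [Algebra.smul_def, mul_one, map_natCast]
    rw [h2] at h1
    rw [h1]
    simp
  · exact_mod_cast hm

end Pool.Agent.L5helper4.NT
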