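import Pool.Agent.L5helper4.NT.Loc
import Pool.Agent.L5helper4.NT.Hgt
import Pool.Agent.L5helper6.BF.Bal

/-!
Integral, balanced representatives in Cox coordinates over a number field.
-/

set_option autoImplicit false
set_option linter.unusedSectionVars false

namespace Pool.Agent.L5helper4.NT

open Finset NumberField Pool.Agent.N852.GR
open Pool.Agent.L5helper6.BF (Ml exists_ml ml_bal ml_ctt)

section

variable {V A J : Type} [Fintype V] [Fintype A] [Fintype J] {π : V → A} {dg : A → J → ℤ}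

theorem act_ne {F : Type} [Field F] {l : J → F} (hl : ∀ j, l j ≠ 0) {P : V → F} {x : V}
    (hx : P x ≠ 0) : act π dg l P x ≠ 0 :=
  mul_ne_zero (prod_ne_zero_iff.2 fun j _ => zpow_ne_zero _ (hl j)) hx

theorem span_le {F : Type} [Field F] [NumberField F] (v : FinitePlace F) {N : ℕ}
    (a : Fin N → 𝓞 F) {t : ℝ} (ht : 0 ≤ t) (ha : ∀ i, v (a i : F) ≤ t) {z : 𝓞 F}
    (hz : z ∈ Ideal.span (Set.range a)) : v (z : F) ≤ t := by
  induction hz using Submodule.span_induction with
  | mem x hx =>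
    obtain ⟨i, rfl⟩ := hx
    exact ha i
  | zero => simpa using ht
  | add x y _ _ hx hy =>
    have h1 : ((x + y : 𝓞 F) : F) = (x : F) + y := map_add (algebraMap (𝓞 F) F) _ _
    rw [h1]
    exact (FinitePlace.add_le v _ _).trans (max_le hx hy)
  | smul r x _ hx =>
    have h1 : ((r • x : 𝓞 F) : F) = (r : F) * x := map_mul (algebraMap (𝓞 F) F) _ _
    rw [h1, map_mul]
    calc v (r : F) * v (x : F) ≤ 1 * t :=
          mul_le_mul (Pool.Agent.R366.UC.fp_int_le v r.2) hx (apply_nonneg _ _) zero_le_one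
      _ = t := one_mul t

theorem sum_dev (μ B : J → ℝ) (D : J → ℤ) {r : ℝ} (h : ∀ j, |μ j - B j| ≤ r) :
    |∑ j, μ j * D j - ∑ j, B j * D j| ≤ r * ∑ j, |(D j : ℝ)| := by
  rw [← sum_sub_distrib, mul_sum]
  refine (abs_sum_le_sum_abs _ _).trans (sum_le_sum fun j _ => ?_)
  rw [← sub_mul, abs_mul]
  exact mul_le_mul_of_nonneg_right (h j) (abs_nonneg _)

theorem single_sum [DecidableEq J] (μ : J → ℝ) (j : J) :
    ∑ i, μ i * ((Pi.single j (1 : ℤ) : J → ℤ) i : ℝ) = μ j := by
  rw [sum_eq_single j]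
  · simp
  · intro i _ hi
    simp [hi]
  · intro h
    exact absurd (mem_univ j) h

theorem glo (F : Type) [Field F] [NumberField F] [DecidableEq J] {S : Set (Set A)}
    (hS : Complete dg S) (he : ∀ j, Free dg S (Pi.single j 1)) :
    ∃ (M : ℕ) (c₀ : ℝ), M ≠ 0 ∧ 0 ≤ c₀ ∧ ∀ P : V → F, (∀ a, ∃ x, π x = a ∧ P x ≠ 0) →
      ∃ l : J → F, (∀ j, l j ≠ 0) ∧ ∃ B : J → ℝ,
        (∀ x, ∃ z : 𝓞 F, (z : F) = (M : F) * act π dg l P x) ∧
        (∀ w : InfinitePlace F, ∀ x, w (act π dg l P x) ≤ Real.exp (∑ j, B j * dg (π x) j + c₀)) ∧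
        ∀ L : J → ℤ, Free dg S L → Module.finrank ℚ F * ∑ j, B j * L j ≤
          Real.log (Height.mulHeight fun e : Mon π dg L => val P e.1) +
            c₀ * ∑ j, |(L j : ℝ)| := by
  classical
  obtain ⟨κ, hκ, hκ1, hbal⟩ := ml_bal F
  obtain ⟨m, hm, hctt⟩ := ml_ctt F
  set K : ℕ := ∑ x, ∑ j, (dg (π x) j).natAbs with hK
  set d : ℕ := Module.finrank ℚ F with hd
  have hd1 : (1 : ℝ) ≤ d := by exact_mod_cast Module.finrank_pos (R := ℚ) (M := F)
  set r₁ : ℝ := |Real.log κ| with hr₁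
  set r₂ : ℝ := Real.log m with hr₂
  have hm1 : (1 : ℝ) ≤ m := by exact_mod_cast Nat.pos_of_ne_zero hm
  have hr₁0 : 0 ≤ r₁ := abs_nonneg _
  have hr₂0 : 0 ≤ r₂ := Real.log_nonneg hm1
  have hKx : ∀ x, ∑ j, |(dg (π x) j : ℝ)| ≤ K := by
    intro x
    have h1 : ∑ j, (dg (π x) j).natAbs ≤ K :=
      single_le_sum (f := fun x => ∑ j, (dg (π x) j).natAbs) (fun _ _ => Nat.zero_le _)
        (mem_univ x)
    have h2 : ((∑ j, (dg (π x) j).natAbs : ℕ) : ℝ) ≤ K := by exact_mod_cast h1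
    refine le_trans (le_of_eq ?_) h2
    push_cast
    refine sum_congr rfl fun j _ => ?_
    rw [Nat.cast_natAbs, Int.cast_abs]
  refine ⟨m ^ K, d * (r₁ + r₂) * (K + 1), pow_ne_zero _ hm, by positivity, fun P hP => ?_⟩
  have hfin : ∀ j, Finite (Mon π dg (Pi.single j (1 : ℤ))) := fun j => mon_finite hS _
  obtain ⟨N, eq⟩ : ∃ N : J → ℕ, Nonempty (∀ j, Mon π dg (Pi.single j (1 : ℤ)) ≃ Fin (N j)) :=
    ⟨fun j => Nat.card (Mon π dg (Pi.single j (1 : ℤ))), ⟨fun j => Finite.equivFin _⟩⟩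
  obtain ⟨eq⟩ := eq
  obtain ⟨w₀⟩ : Nonempty (InfinitePlace F) := inferInstance
  have hx0 : ∀ j, (fun i : Fin (N j) => val P ((eq j).symm i).1) ≠ 0 := by
    intro j
    obtain ⟨μ, -, h2⟩ := loc hS w₀.1 P hP
    obtain ⟨e, he'⟩ := (h2 _).2 (he j)
    refine Function.ne_iff.2 ⟨eq j e, ?_⟩
    show val P ((eq j).symm (eq j e)).1 ≠ 0
    rw [Equiv.symm_apply_apply]
    intro h0
    rw [h0, map_zero] at he'
    exact (Real.exp_pos _).ne he'
  choose X hX c hc hXc using fun j => exists_ml _ (hx0 j)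
  have hval : ∀ j, ∀ e : Mon π dg (Pi.single j (1 : ℤ)),
      val (act π dg c P) e.1 = (X j (eq j e) : F) := by
    intro j e
    rw [val_act hc P e.2]
    have h1 : (X j (eq j e) : F) = c j * val P ((eq j).symm (eq j e)).1 :=
      congrFun (hXc j) (eq j e)
    rw [h1, Equiv.symm_apply_apply]
    congr 1
    rw [prod_eq_single j]
    · simp
    · intro i _ hi
      simp [hi]
    · intro h
      exact absurd (mem_univ j) h
  have hval' : ∀ j, ∀ i : Fin (N j), (X j i : F) = val (act π dg c P) ((eq j).symm i).1 := by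
    intro j i
    rw [hval j, Equiv.apply_symm_apply]
  have hP' : ∀ a, ∃ x, π x = a ∧ act π dg c P x ≠ 0 := by
    intro a
    obtain ⟨x, hx, hx'⟩ := hP a
    exact ⟨x, hx, act_ne hc hx'⟩
  have hXpos : ∀ j, 0 < ‖io (X j)‖ := fun j => Ctt.io_pos (hX j).1
  -- the infinite places
  have hinf : ∀ w : InfinitePlace F, ∃ μ : J → ℝ, (∀ j, |μ j - Real.log ‖io (X j)‖| ≤ r₁) ∧
      (∀ x, w (act π dg c P x) ≤ Real.exp (∑ j, μ j * dg (π x) j)) ∧
      ∀ L : J → ℤ, Free dg S L → ∃ e : Mon π dg L,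
        w (val (act π dg c P) e.1) = Real.exp (∑ j, μ j * L j) := by
    intro w
    obtain ⟨μ, h1, h2⟩ := loc hS w.1 (act π dg c P) hP'
    refine ⟨μ, fun j => ?_, h1, fun L hL => (h2 L).2 hL⟩
    have h3 := h2 (Pi.single j (1 : ℤ))
    rw [single_sum] at h3
    obtain ⟨h4, h5⟩ := h3
    obtain ⟨e, h6⟩ := h5 (he j)
    have h7 : μ j ≤ Real.log ‖io (X j)‖ := by
      rw [Real.le_log_iff_exp_le (hXpos j), ← h6, hval j e]
      exact Ctt.w_le (X j) _ w
    have h8 : Real.log κ + Real.log ‖io (X j)‖ ≤ μ j := by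
      rw [← Real.log_mul hκ.ne' (hXpos j).ne', Real.log_le_iff_le_exp (mul_pos hκ (hXpos j))]
      obtain ⟨i, hi⟩ := hbal _ (X j) (hX j) w
      refine hi.trans ?_
      rw [hval' j i]
      exact h4 _
    rw [abs_le]
    have h9 := neg_abs_le (Real.log κ)
    constructor
    · linarith
    · linarith
  -- the finite places
  have hfp : ∀ v : FinitePlace F, ∃ μ : J → ℝ, (∀ j, |μ j - 0| ≤ -Real.log (v (m : F))) ∧
      (∀ x, v (act π dg c P x) ≤ Real.exp (∑ j, μ j * dg (π x) j)) ∧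
      ∀ L : J → ℤ, Free dg S L → ∃ e : Mon π dg L,
        v (val (act π dg c P) e.1) = Real.exp (∑ j, μ j * L j) := by
    intro v
    obtain ⟨μ, h1, h2⟩ := loc hS v.1 (act π dg c P) hP'
    refine ⟨μ, fun j => ?_, h1, fun L hL => (h2 L).2 hL⟩
    have h3 := h2 (Pi.single j (1 : ℤ))
    rw [single_sum] at h3
    obtain ⟨h4, h5⟩ := h3
    obtain ⟨e, h6⟩ := h5 (he j)
    have hvm : 0 < v (m : F) := FinitePlace.pos_iff.2 (by exact_mod_cast hm)
    have h7 : μ j ≤ 0 := by
      rw [← Real.exp_le_one_iff, ← h6, hval j e]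
      exact Pool.Agent.R366.UC.fp_int_le v (X j (eq j e)).2
    have h8 : Real.log (v (m : F)) ≤ μ j := by
      rw [Real.log_le_iff_le_exp hvm]
      have h9 := span_le v (X j) (Real.exp_pos (μ j)).le (fun i => by
        rw [hval' j i]
        exact h4 _) (hctt _ (X j) (hX j))
      simpa using h9
    rw [sub_zero, abs_le]
    constructor
    · linarith
    · linarith
  have hvm0 : ∀ v : FinitePlace F, 0 < v (m : F) := fun v =>
    FinitePlace.pos_iff.2 (by exact_mod_cast hm)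
  have hvm1 : ∀ v : FinitePlace F, v (m : F) ≤ 1 := fun v => by
    refine Pool.Agent.R366.UC.fp_int_le v ?_
    have h := isIntegral_algebraMap (R := ℤ) (A := F) (x := (m : ℤ))
    simpa using h
  refine ⟨c, hc, fun j => Real.log ‖io (X j)‖, fun x => exists_int fun v => ?_, fun w x => ?_,
    fun L hL => ?_⟩
  · obtain ⟨μ, h1, h2, -⟩ := hfp v
    have h3 := sum_dev μ (fun _ => 0) (dg (π x)) h1
    simp only [zero_mul, sum_const_zero, sub_zero] at h3
    have h4 : ∑ j, μ j * dg (π x) j ≤ -Real.log (v (m : F)) * K :=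
      (le_abs_self _).trans (h3.trans (mul_le_mul_of_nonneg_left (hKx x)
        (neg_nonneg.2 (Real.log_nonpos (hvm0 v).le (hvm1 v)))))
    have h5 := (h2 x).trans (Real.exp_le_exp.2 h4)
    rw [map_mul]
    have h6 : v (((m ^ K : ℕ) : F)) = v (m : F) ^ K := by
      push_cast
      exact map_pow _ _ _
    rw [h6]
    calc v (m : F) ^ K * v (act π dg c P x) ≤
          v (m : F) ^ K * Real.exp (-Real.log (v (m : F)) * K) :=
          mul_le_mul_of_nonneg_left h5 (pow_nonneg (hvm0 v).le _)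
      _ = 1 := by
          have h7 : v (m : F) ^ K = Real.exp (Real.log (v (m : F)) * K) := by
            rw [← Real.rpow_natCast, Real.rpow_def_of_pos (hvm0 v)]
          rw [h7, ← Real.exp_add]
          ring_nf
          exact Real.exp_zero
  · obtain ⟨μ, h1, h2, -⟩ := hinf w
    have h3 := sum_dev μ _ (dg (π x)) h1
    refine (h2 x).trans (Real.exp_le_exp.2 ?_)
    have h4 := (le_abs_self _).trans h3
    have h5 : r₁ * ∑ j, |(dg (π x) j : ℝ)| ≤ r₁ * K := mul_le_mul_of_nonneg_left (hKx x) hr₁0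
    have h6 : r₁ * K ≤ d * (r₁ + r₂) * (K + 1) := by
      have : (0 : ℝ) ≤ K := Nat.cast_nonneg _
      calc r₁ * K ≤ (1 * (r₁ + r₂)) * (K + 1) := by
            rw [one_mul]
            exact mul_le_mul (by linarith) (by linarith) this (by positivity)
        _ ≤ d * (r₁ + r₂) * (K + 1) := by gcongr
    linarith
  · set R : ℕ := ∑ j, (L j).natAbs with hR
    have hRr : (R : ℝ) = ∑ j, |(L j : ℝ)| := by
      rw [hR]
      push_cast
      refine sum_congr rfl fun j _ => ?_
      rw [Nat.cast_natAbs, Int.cast_abs]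
    have hfinL := mon_finite (π := π) hS L
    have hprod : (∏ j, c j ^ L j) ≠ 0 := prod_ne_zero_iff.2 fun j _ => zpow_ne_zero _ (hc j)
    have hsm : (fun e : Mon π dg L => val (act π dg c P) e.1) =
        (∏ j, c j ^ L j) • fun e : Mon π dg L => val P e.1 := by
      funext e
      exact val_act hc P e.2
    rw [← Height.mulHeight_smul_eq_mulHeight (fun e : Mon π dg L => val P e.1) hprod, ← hsm]
    choose μ hμ1 hμ2 hμ3 using hinf
    have hge := height_ge (fun e : Mon π dg L => val (act π dg c P) e.1) (by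
        obtain ⟨e, h1⟩ := hμ3 w₀ L hL
        refine Function.ne_iff.2 ⟨e, fun h0 => ?_⟩
        have h0' : val (act π dg c P) e.1 = 0 := h0
        rw [h0', map_zero] at h1
        exact (Real.exp_pos _).ne h1)
      (fun w => Real.exp (∑ j, μ w j * L j)) (fun w => (Real.exp_pos _).le)
      (c := ((m ^ R : ℕ) : F)) (by exact_mod_cast pow_ne_zero _ hm)
      (fun w => by
        obtain ⟨e, h1⟩ := hμ3 w L hL
        exact ⟨e, h1.ge⟩)
      (fun v => by
        obtain ⟨μ', h1, -, h3⟩ := hfp v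
        obtain ⟨e, h4⟩ := h3 L hL
        refine ⟨e, ?_⟩
        rw [h4]
        have h5 := sum_dev μ' (fun _ => 0) L h1
        simp only [zero_mul, sum_const_zero, sub_zero] at h5
        rw [← hRr] at h5
        have h6 := (abs_le.1 h5).1
        have h7 : v (((m ^ R : ℕ) : F)) = Real.exp (Real.log (v (m : F)) * R) := by
          push_cast
          rw [map_pow, ← Real.rpow_natCast, Real.rpow_def_of_pos (hvm0 v)]
        rw [h7]
        exact Real.exp_le_exp.2 (by linarith))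
    have hlow : ∀ w : InfinitePlace F, ∑ j, Real.log ‖io (X j)‖ * L j - r₁ * R ≤
        ∑ j, μ w j * L j := by
      intro w
      have h1 := sum_dev (μ w) _ L (hμ1 w)
      rw [← hRr] at h1
      have h2 := (abs_le.1 h1).1
      linarith
    set Q : ℝ := ∑ j, Real.log ‖io (X j)‖ * L j with hQ
    have hprodw : Real.exp (d * (Q - r₁ * R)) ≤
        ∏ w : InfinitePlace F, Real.exp (∑ j, μ w j * L j) ^ w.mult := by
      calc Real.exp (d * (Q - r₁ * R)) =
            ∏ w : InfinitePlace F, Real.exp (Q - r₁ * R) ^ w.mult := by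
            rw [prod_pow_eq_pow_sum, InfinitePlace.sum_mult_eq, Real.exp_nat_mul]
        _ ≤ _ := prod_le_prod (fun w _ => pow_nonneg (Real.exp_pos _).le _) fun w _ =>
            pow_le_pow_left₀ (Real.exp_pos _).le (Real.exp_le_exp.2 (hlow w)) _
    rw [finprod_nat (pow_ne_zero _ hm)] at hge
    have h9 : Real.exp (d * (Q - r₁ * R)) * (((m ^ R : ℕ) : ℝ) ^ d)⁻¹ ≤
        Height.mulHeight fun e : Mon π dg L => val (act π dg c P) e.1 :=
      (mul_le_mul_of_nonneg_right hprodw (by positivity)).trans hge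
    have h10 := Real.log_le_log (by positivity) h9
    rw [Real.log_mul (Real.exp_pos _).ne' (by positivity), Real.log_exp, Real.log_inv,
      Real.log_pow] at h10
    push_cast at h10
    rw [Real.log_pow] at h10
    rw [← hRr]
    have h11 : (d : ℝ) * (r₁ + r₂) * R ≤ d * (r₁ + r₂) * (K + 1) * R := by
      have : (0 : ℝ) ≤ K := Nat.cast_nonneg _
      have h12 : 0 ≤ (d : ℝ) * (r₁ + r₂) := by positivity
      have h13 : (0 : ℝ) ≤ R := Nat.cast_nonneg _
      have h14 : 0 ≤ (d : ℝ) * (r₁ + r₂) * K * R := by positivity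
      nlinarith
    nlinarith

end

end Pool.Agent.L5helper4.NT
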