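import Mathlib

/-!
Cox coordinates: monomials, and the local part of the descent to the universal torsor.
-/

set_option autoImplicit false
set_option linter.unusedSectionVars false

namespace Pool.Agent.L5helper4.NT

open Finset

section

variable {V A J : Type} [Fintype V] [Fintype A] [Fintype J] (π : V → A) (dg : A → J → ℤ)

/-- the exponents of the monomials of degree `L` -/
def Mon (L : J → ℤ) : Type := {e : V → ℕ // ∀ j, ∑ x, (e x : ℤ) * dg (π x) j = L j}

/-- the value of a monomial -/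
def val {F : Type} [CommMonoid F] (P : V → F) (e : V → ℕ) : F := ∏ x, P x ^ e x

/-- the action of the torus -/
def act {F : Type} [Field F] (l : J → F) (P : V → F) : V → F :=
  fun x => (∏ j, l j ^ dg (π x) j) * P x

/-- completeness of the fan -/
def Complete (S : Set (Set A)) : Prop := ∀ t : A → ℝ, ∃ s ∈ S, ∃ μ : J → ℝ,
  ∀ a, ∑ j, μ j * dg a j ≤ t a ∧ (a ∈ s → ∑ j, μ j * dg a j = t a)

/-- classes without base points -/
def Free (S : Set (Set A)) (L : J → ℤ) : Prop := ∀ s ∈ S, ∃ l : A → ℕ, (∀ a, a ∉ s → l a = 0) ∧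
  ∀ j, ∑ a, (l a : ℤ) * dg a j = L j

variable {π dg}

theorem zpow_sum' {F ι : Type} [Field F] {l : F} (hl : l ≠ 0) (s : Finset ι) (f : ι → ℤ) :
    ∏ x ∈ s, l ^ f x = l ^ ∑ x ∈ s, f x := by
  classical
  induction s using Finset.induction_on with
  | empty => simp
  | insert a s ha ih => rw [prod_insert ha, sum_insert ha, zpow_add₀ hl, ih]

theorem val_act {F : Type} [Field F] {l : J → F} (hl : ∀ j, l j ≠ 0) (P : V → F) {L : J → ℤ}
    {e : V → ℕ} (he : ∀ j, ∑ x, (e x : ℤ) * dg (π x) j = L j) :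
    val (act π dg l P) e = (∏ j, l j ^ L j) * val P e := by
  unfold val act
  simp only [mul_pow, prod_mul_distrib]
  congr 1
  calc ∏ x, (∏ j, l j ^ dg (π x) j) ^ e x = ∏ x, ∏ j, l j ^ ((e x : ℤ) * dg (π x) j) := by
        refine prod_congr rfl fun x _ => ?_
        rw [← prod_pow]
        refine prod_congr rfl fun j _ => ?_
        rw [← zpow_natCast, ← zpow_mul, mul_comm]
    _ = ∏ j, ∏ x, l j ^ ((e x : ℤ) * dg (π x) j) := prod_comm
    _ = ∏ j, l j ^ L j := by
        refine prod_congr rfl fun j _ => ?_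
        rw [← he j, zpow_sum' (hl j)]

theorem log_val {F : Type} [Field F] (v : AbsoluteValue F ℝ) (P : V → F) (e : V → ℕ) :
    v (val P e) = ∏ x, v (P x) ^ e x := by
  unfold val
  rw [map_prod]
  exact prod_congr rfl fun x _ => map_pow v _ _

theorem sum_ps (μ : J → ℝ) {L : J → ℤ} {e : V → ℕ}
    (he : ∀ j, ∑ x, (e x : ℤ) * dg (π x) j = L j) :
    ∑ x, (e x : ℝ) * ∑ j, μ j * dg (π x) j = ∑ j, μ j * L j := by
  calc ∑ x, (e x : ℝ) * ∑ j, μ j * dg (π x) j = ∑ x, ∑ j, μ j * ((e x : ℝ) * dg (π x) j) := by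
        refine sum_congr rfl fun x _ => ?_
        rw [mul_sum]
        exact sum_congr rfl fun j _ => by ring
    _ = ∑ j, ∑ x, μ j * ((e x : ℝ) * dg (π x) j) := sum_comm
    _ = ∑ j, μ j * L j := by
        refine sum_congr rfl fun j _ => ?_
        rw [← he j, ← mul_sum]
        push_cast
        rfl

/-- The local computation at one absolute value. -/
theorem loc {S : Set (Set A)} (hS : Complete dg S) {F : Type} [Field F] (v : AbsoluteValue F ℝ)
    (P : V → F) (hP : ∀ a, ∃ x, π x = a ∧ P x ≠ 0) :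
    ∃ μ : J → ℝ, (∀ x, v (P x) ≤ Real.exp (∑ j, μ j * dg (π x) j)) ∧
      ∀ L : J → ℤ, (∀ e : Mon π dg L, v (val P e.1) ≤ Real.exp (∑ j, μ j * L j)) ∧
        (Free dg S L → ∃ e : Mon π dg L, v (val P e.1) = Real.exp (∑ j, μ j * L j)) := by
  classical
  have hmax : ∀ a, ∃ x, π x = a ∧ P x ≠ 0 ∧ ∀ y, π y = a → v (P y) ≤ v (P x) := by
    intro a
    obtain ⟨x₀, hx₀, hx₀'⟩ := hP a
    obtain ⟨x, hx, hm⟩ := (univ.filter fun x => π x = a).exists_max_image (fun x => v (P x))
      ⟨x₀, by simp [hx₀]⟩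
    rw [mem_filter] at hx
    refine ⟨x, hx.2, ?_, fun y hy => hm y (by simp [hy])⟩
    intro h
    have h1 := hm x₀ (by simp [hx₀])
    rw [h, map_zero] at h1
    exact absurd h1 (not_le.2 (v.pos hx₀'))
  choose ξ hξ1 hξ2 hξ3 using hmax
  have hpos : ∀ a, 0 < v (P (ξ a)) := fun a => v.pos (hξ2 a)
  obtain ⟨s, hs, μ, hμ⟩ := hS fun a => -Real.log (v (P (ξ a)))
  have hN : ∀ a, v (P (ξ a)) ≤ Real.exp (∑ j, (-μ j) * dg a j) := by
    intro a
    have h1 := (hμ a).1
    rw [← Real.log_le_iff_le_exp (hpos a)]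
    have h2 : ∑ j, (-μ j) * dg a j = -∑ j, μ j * dg a j := by
      rw [← sum_neg_distrib]
      exact sum_congr rfl fun j _ => by ring
    rw [h2]
    linarith
  have hNe : ∀ a ∈ s, v (P (ξ a)) = Real.exp (∑ j, (-μ j) * dg a j) := by
    intro a ha
    have h1 := (hμ a).2 ha
    have h2 : ∑ j, (-μ j) * dg a j = -∑ j, μ j * dg a j := by
      rw [← sum_neg_distrib]
      exact sum_congr rfl fun j _ => by ring
    rw [h2, h1, neg_neg, Real.exp_log (hpos a)]
  have hx : ∀ x, v (P x) ≤ Real.exp (∑ j, (-μ j) * dg (π x) j) := fun x =>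
    (hξ3 (π x) x rfl).trans (hN (π x))
  refine ⟨fun j => -μ j, hx, fun L => ⟨fun e => ?_, fun hL => ?_⟩⟩
  · rw [log_val, ← sum_ps (fun j => -μ j) e.2, Real.exp_sum]
    refine prod_le_prod (fun x _ => pow_nonneg (apply_nonneg _ _) _) fun x _ => ?_
    rw [Real.exp_nat_mul]
    exact pow_le_pow_left₀ (apply_nonneg _ _) (hx x) _
  · obtain ⟨l, hl0, hl⟩ := hL s hs
    have hinj : ∀ a b, ξ a = ξ b → a = b := fun a b h => by rw [← hξ1 a, ← hξ1 b, h]
    set e : V → ℕ := fun x => if ξ (π x) = x then l (π x) else 0 with he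
    have hsum : ∀ f : V → ℝ, ∑ x, (e x : ℝ) * f x = ∑ a, (l a : ℝ) * f (ξ a) := by
      intro f
      calc ∑ x, (e x : ℝ) * f x = ∑ x ∈ image ξ univ, (e x : ℝ) * f x := by
            symm
            refine sum_subset (subset_univ _) fun x _ hx => ?_
            have : e x = 0 := by
              rw [he]
              refine if_neg fun h => hx ?_
              rw [← h]
              exact mem_image_of_mem _ (mem_univ _)
            rw [this]
            simp
        _ = ∑ a, (e (ξ a) : ℝ) * f (ξ a) := sum_image fun a _ b _ h => hinj a b h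
        _ = ∑ a, (l a : ℝ) * f (ξ a) := by
            refine sum_congr rfl fun a _ => ?_
            have : e (ξ a) = l a := by
              rw [he]
              simp [hξ1]
            rw [this]
    have hdeg : ∀ j, ∑ x, (e x : ℤ) * dg (π x) j = L j := by
      intro j
      have h1 := hsum fun x => (dg (π x) j : ℝ)
      rw [← hl j]
      have h2 : ((∑ x, (e x : ℤ) * dg (π x) j : ℤ) : ℝ) =
          ((∑ a, (l a : ℤ) * dg a j : ℤ) : ℝ) := by
        push_cast
        rw [h1]
        exact sum_congr rfl fun a _ => by rw [hξ1]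
      exact_mod_cast h2
    refine ⟨⟨e, hdeg⟩, ?_⟩
    rw [log_val, ← sum_ps (fun j => -μ j) hdeg, Real.exp_sum]
    refine prod_congr rfl fun x _ => ?_
    by_cases hxx : ξ (π x) = x
    · by_cases ha : π x ∈ s
      · rw [Real.exp_nat_mul, ← hNe (π x) ha, hxx]
      · have : e x = 0 := by
          show (if ξ (π x) = x then l (π x) else 0) = 0
          rw [if_pos hxx, hl0 _ ha]
        show v (P x) ^ e x = _
        rw [this]
        simp
    · have : e x = 0 := if_neg hxx
      show v (P x) ^ e x = _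
      rw [this]
      simp

/-- There is a linear form which is positive on all the degrees. -/
theorem exists_pos {S : Set (Set A)} (hS : Complete dg S) :
    ∃ φ : J → ℝ, ∀ a, 1 ≤ ∑ j, φ j * dg a j := by
  obtain ⟨s, _, μ, hμ⟩ := hS fun _ => -1
  refine ⟨fun j => -μ j, fun a => ?_⟩
  have h1 := (hμ a).1
  have h2 : ∑ j, (-μ j) * dg a j = -∑ j, μ j * dg a j := by
    rw [← sum_neg_distrib]
    exact sum_congr rfl fun j _ => by ring
  rw [h2]
  linarith

theorem mon_finite {S : Set (Set A)} (hS : Complete dg S) (L : J → ℤ) : Finite (Mon π dg L) := by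
  obtain ⟨φ, hφ⟩ := exists_pos hS
  set B : ℕ := ⌈∑ j, φ j * L j⌉₊ with hB
  have h : ∀ e : Mon π dg L, ∀ x, e.1 x ≤ B := by
    intro e x
    have h1 := sum_ps φ e.2
    have h2 : (e.1 x : ℝ) ≤ ∑ x, (e.1 x : ℝ) * ∑ j, φ j * dg (π x) j := by
      have h3 : (e.1 x : ℝ) ≤ (e.1 x : ℝ) * ∑ j, φ j * dg (π x) j :=
        le_mul_of_one_le_right (Nat.cast_nonneg _) (hφ _)
      refine h3.trans (single_le_sum (f := fun x => (e.1 x : ℝ) * ∑ j, φ j * dg (π x) j)
        (fun y _ => mul_nonneg (Nat.cast_nonneg _) (zero_le_one.trans (hφ _))) (mem_univ x))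
    rw [h1] at h2
    have h4 := h2.trans (Nat.le_ceil _)
    exact_mod_cast h4
  have hf : Function.Injective fun e : Mon π dg L => fun x =>
      (⟨e.1 x, Nat.lt_succ_of_le (h e x)⟩ : Fin (B + 1)) := by
    intro e e' hee
    apply Subtype.ext
    funext x
    exact congrArg Fin.val (congrFun hee x)
  exact Finite.of_injective _ hf

end

end Pool.Agent.L5helper4.NT
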