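import Pool.Agent.L5helper4.NT.Loc
import Pool.Agent.L5helper4.NT.Blk
import Pool.Agent.L5helper4.NT.Cnt

/-!
Towers of norm equations in Cox coordinates: definitions, the action of the torus, counting.
-/

set_option autoImplicit false
set_option linter.unusedSectionVars false

namespace Pool.Agent.L5helper4.NT

open Finset NumberField Module

variable {n q p r : ℕ} {m : Fin q → ℕ}

/-- the coordinates: `y_1, ..., y_n`, and `m i` coordinates of the block `z_i` -/
abbrev Vr (n : ℕ) {q : ℕ} (m : Fin q → ℕ) : Type := Fin n ⊕ (Σ i : Fin q, Fin (m i))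

/-- the block of a coordinate -/
def pr (x : Vr n m) : Fin n ⊕ Fin q := Sum.map id Sigma.fst x

section

variable {F : Type} [Field F] [NumberField F] {E : Fin q → Type} [∀ i, Field (E i)]
  [∀ i, NumberField (E i)] [∀ i, Algebra F (E i)] (b : ∀ i, Basis (Fin (m i)) F (E i))
  (c : Fin q → Fin r) (G : Fin r → MvPolynomial (Vr n m) F) (dg : Fin n ⊕ Fin q → Fin p → ℤ)

/-- the value of the norm form of the block `i` -/
noncomputable def nrm (i : Fin q) (P : Vr n m → F) : F := nf (b i) fun k => P (Sum.inr ⟨i, k⟩)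

/-- the equations -/
def OnX (P : Vr n m → F) : Prop :=
  ∀ k, ∏ i with c i = k, nrm b i P = MvPolynomial.eval P (G k)

/-- the open subset -/
def InU (P : Vr n m → F) : Prop :=
  (∀ i, P (Sum.inl i) ≠ 0) ∧ ∀ k, MvPolynomial.eval P (G k) ≠ 0

/-- in the equation `k` only the coordinates `y` and the coordinates of blocks before the blocks of
this equation occur -/
def Earlier : Prop := ∀ k, ∀ x ∈ (G k).vars, ∀ (j : Fin q) (l : Fin (m j)), x = Sum.inr ⟨j, l⟩ →
  ∀ i, c i = k → j < i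

/-- homogeneity -/
def Homog : Prop := ∀ k, ∀ e ∈ (G k).support, ∀ j,
  ∑ x, (e x : ℤ) * dg (pr x) j = ∑ i with c i = k, (m i : ℤ) * dg (Sum.inr i) j

variable {b c G dg}

theorem nrm_act {l : Fin p → F} (P : Vr n m → F) (i : Fin q) :
    nrm b i (act pr dg l P) = (∏ j, l j ^ dg (Sum.inr i) j) ^ m i * nrm b i P := by
  unfold nrm
  rw [← nf_smul]
  rfl

theorem eval_act (hG : Homog c G dg) {l : Fin p → F} (hl : ∀ j, l j ≠ 0) (P : Vr n m → F)
    (k : Fin r) : MvPolynomial.eval (act pr dg l P) (G k) =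
      (∏ j, l j ^ (∑ i with c i = k, (m i : ℤ) * dg (Sum.inr i) j)) *
        MvPolynomial.eval P (G k) := by
  rw [MvPolynomial.eval_eq', MvPolynomial.eval_eq', mul_sum]
  refine sum_congr rfl fun e he => ?_
  have h1 := val_act (π := pr) (dg := dg) hl P (L := fun j => ∑ i with c i = k,
    (m i : ℤ) * dg (Sum.inr i) j) (e := e) (hG k e he)
  unfold val at h1
  rw [h1]
  ring

theorem prod_act {l : Fin p → F} (hl : ∀ j, l j ≠ 0) (P : Vr n m → F) (k : Fin r) :
    ∏ i with c i = k, nrm b i (act pr dg l P) =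
      (∏ j, l j ^ (∑ i with c i = k, (m i : ℤ) * dg (Sum.inr i) j)) *
        ∏ i with c i = k, nrm b i P := by
  have h1 : ∀ i, nrm b i (act pr dg l P) = (∏ j, l j ^ ((m i : ℤ) * dg (Sum.inr i) j)) *
      nrm b i P := by
    intro i
    rw [nrm_act, ← prod_pow]
    congr 1
    refine prod_congr rfl fun j _ => ?_
    rw [← zpow_natCast, ← zpow_mul, mul_comm]
  simp only [h1, prod_mul_distrib]
  congr 1
  rw [prod_comm]
  exact prod_congr rfl fun j _ => zpow_sum' (hl j) _ _

theorem OnX_act (hG : Homog c G dg) {l : Fin p → F} (hl : ∀ j, l j ≠ 0) {P : Vr n m → F}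
    (h : OnX b c G P) : OnX b c G (act pr dg l P) := by
  intro k
  rw [prod_act hl, eval_act hG hl, h k]

theorem InU_act (hG : Homog c G dg) {l : Fin p → F} (hl : ∀ j, l j ≠ 0) {P : Vr n m → F}
    (h : InU G P) : InU G (act pr dg l P) := by
  refine ⟨fun i => ?_, fun k => ?_⟩
  · exact mul_ne_zero (prod_ne_zero_iff.2 fun j _ => zpow_ne_zero _ (hl j)) (h.1 i)
  · rw [eval_act hG hl]
    exact mul_ne_zero (prod_ne_zero_iff.2 fun j _ => zpow_ne_zero _ (hl j)) (h.2 k)

theorem nrm_ne {P : Vr n m → F} (h1 : OnX b c G P) (h2 : InU G P) (i : Fin q) :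
    nrm b i P ≠ 0 := by
  have h3 := h2.2 (c i)
  rw [← h1 (c i), prod_ne_zero_iff] at h3
  exact h3 i (by simp)

theorem blocks_ne {P : Vr n m → F} (h1 : OnX b c G P) (h2 : InU G P) (a : Fin n ⊕ Fin q) :
    ∃ x, pr x = a ∧ P x ≠ 0 := by
  rcases a with i | i
  · exact ⟨Sum.inl i, rfl, h2.1 i⟩
  · have h3 := nf_ne (b i) (nrm_ne h1 h2 i)
    obtain ⟨k, hk⟩ := Function.ne_iff.1 h3
    exact ⟨Sum.inr ⟨i, k⟩, rfl, hk⟩

/-- the polynomial of an equation depends only on the earlier coordinates -/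
theorem eval_congr (he : Earlier c G) {P Q : Vr n m → F} (k : Fin r)
    (h1 : ∀ i, P (Sum.inl i) = Q (Sum.inl i))
    (h2 : ∀ j, (∀ i, c i = k → j < i) → ∀ l, P (Sum.inr ⟨j, l⟩) = Q (Sum.inr ⟨j, l⟩)) :
    MvPolynomial.eval P (G k) = MvPolynomial.eval Q (G k) := by
  refine MvPolynomial.eval₂Hom_congr' rfl (fun x hx _ => ?_) rfl
  rcases x with i | ⟨j, l⟩
  · exact h1 i
  · exact h2 j (fun i hi => he k _ hx j l rfl i hi) l

end

section

variable {F : Type} [Field F] [NumberField F] {E : Fin q → Type} [∀ i, Field (E i)]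
  [∀ i, NumberField (E i)] [∀ i, Algebra F (E i)] (b : ∀ i, Basis (Fin (m i)) F (E i))
  (c : Fin q → Fin r) (G : Fin r → MvPolynomial (Vr n m) F)

/-- **Counting** the points with integral, bounded coordinates. -/
theorem cnt (he : Earlier c G) {M : ℕ} (hM : M ≠ 0) {δ : ℝ} (hδ : 0 < δ) :
    ∃ C : ℝ, 0 < C ∧ ∀ X Y : ℝ, 1 ≤ Y → Y ≤ X → ∀ T : Finset (Vr n m → F),
      (∀ P ∈ T, OnX b c G P ∧ InU G P ∧ (∀ x, ∃ z : 𝓞 F, (z : F) = (M : F) * P x) ∧
        (∀ (w : InfinitePlace F) x, w (P x) ≤ X) ∧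
        |((∏ i, Algebra.norm ℚ ((M : F) * P (Sum.inl i)) : ℚ) : ℝ)| ≤ Y) →
      (T.card : ℝ) ≤ C * Y * X ^ δ := by
  classical
  have hM1 : (1 : ℝ) ≤ M := by exact_mod_cast Nat.pos_of_ne_zero hM
  obtain ⟨C₁, hC₁, htup⟩ := tuples (F := F) n (δ := δ / 2) (by positivity)
  choose M' Cb hM' hCb hblk using fun i => blk (b i) M
  set Cm : ℝ := 1 + ∑ i, Cb i with hCm
  have hCb0 : ∀ i, 0 ≤ Cb i := fun i => zero_le_one.trans (hCb i)
  have hCm1 : 1 ≤ Cm := by
    have : 0 ≤ ∑ i, Cb i := sum_nonneg fun i _ => hCb0 i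
    linarith
  have hCbm : ∀ i, Cb i ≤ Cm := by
    intro i
    have := single_le_sum (f := Cb) (fun i _ => hCb0 i) (mem_univ i)
    linarith
  set N : ℕ := 1 + ∑ i, finrank ℚ (E i) with hN
  have hN1 : 1 ≤ N := by omega
  set δ₂ : ℝ := δ / (2 * (q + 1) * N) with hδ₂
  have hNr : (1 : ℝ) ≤ N := by exact_mod_cast hN1
  have hδ₂0 : 0 < δ₂ := by positivity
  choose Cd hCd hdiv using fun i => Pool.Agent.R366.NF.few_divisors (E := E i) hδ₂0
  set Cs : ℝ := 1 + ∑ i, Cd i with hCs
  have hCs0 : ∀ i, Cd i ≤ Cs := by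
    intro i
    have := single_le_sum (f := Cd) (fun i _ => (hCd i).le) (mem_univ i)
    linarith
  have hCs1 : 1 ≤ Cs := by
    have : 0 ≤ ∑ i, Cd i := sum_nonneg fun i _ => (hCd i).le
    linarith
  refine ⟨(Cs * (Cm ^ N) ^ δ₂) ^ q * (C₁ * (M : ℝ) ^ (δ / 2)), by positivity,
    fun X Y hY hYX T hT => ?_⟩
  have hX : 1 ≤ X := hY.trans hYX
  -- integers
  have hxi : ∀ (P : Vr n m → F) (i : Fin n), ∃ z : 𝓞 F, P ∈ T → (z : F) = (M : F) * P (Sum.inl i) := by
    intro P i
    by_cases hP : P ∈ T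
    · obtain ⟨z, hz⟩ := (hT P hP).2.2.1 (Sum.inl i)
      exact ⟨z, fun _ => hz⟩
    · exact ⟨0, fun h => absurd h hP⟩
  choose xi hxi' using hxi
  have hze : ∀ (P : Vr n m → F) (i : Fin q), ∃ ζ : 𝓞 (E i), P ∈ T →
      ((ζ : E i) = ((M * M' i : ℕ) : E i) * el (b i) (fun k => P (Sum.inr ⟨i, k⟩)) ∧
        ∀ w : InfinitePlace (E i), w (ζ : E i) ≤ Cb i * X) := by
    intro P i
    by_cases hP : P ∈ T
    · obtain ⟨-, -, h3, h4, -⟩ := hT P hP
      obtain ⟨ζ, hζ⟩ := hblk i (fun k => P (Sum.inr ⟨i, k⟩)) X hX (fun k => h3 _) (fun w k => h4 w _)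
      exact ⟨ζ, fun _ => hζ⟩
    · exact ⟨0, fun h => absurd h hP⟩
  choose ze hze' using hze
  have hMF : (M : F) ≠ 0 := by exact_mod_cast hM
  -- the tuples
  have himg : ((T.image xi).card : ℝ) ≤ C₁ * Y * (M * X) ^ (δ / 2) := by
    refine htup (M * X) Y hY (hYX.trans (by nlinarith)) _ fun x hx => ?_
    obtain ⟨P, hP, rfl⟩ := mem_image.1 hx
    obtain ⟨h1, h2, h3, h4, h5⟩ := hT P hP
    refine ⟨fun i h0 => ?_, fun i w => ?_, ?_⟩
    · have h6 := hxi' P i hP
      rw [h0] at h6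
      have h7 : (M : F) * P (Sum.inl i) = 0 := by rw [← h6]; simp
      exact (mul_ne_zero hMF (h2.1 i)) h7
    · rw [hxi' P i hP, map_mul]
      have h6 : w (M : F) = M := by simp
      rw [h6]
      exact mul_le_mul_of_nonneg_left (h4 w _) (by linarith)
    · have h6 : ((∏ i, Algebra.norm ℤ (xi P i) : ℤ) : ℝ) =
          ((∏ i, Algebra.norm ℚ ((M : F) * P (Sum.inl i)) : ℚ) : ℝ) := by
        push_cast
        refine prod_congr rfl fun i _ => ?_
        rw [← hxi' P i hP, ← Algebra.coe_norm_int]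
        push_cast
        rfl
      rw [h6]
      exact h5
  -- the fibres
  set K : ℕ := ⌊Cs * ((Cm * X) ^ N) ^ δ₂⌋₊ with hK
  have hCmX : 1 ≤ Cm * X := by nlinarith
  have hfib : ∀ y ∈ T.image xi, (T.filter fun P => xi P = y).card ≤ K ^ q := by
    intro y _
    set T' := T.filter fun P => xi P = y with hT'
    have hinj : Set.InjOn ze (T' : Set (Vr n m → F)) := by
      intro P hP Q hQ hPQ
      rw [mem_coe, hT', mem_filter] at hP hQ
      funext x
      rcases x with i | ⟨i, k⟩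
      · have h1 := hxi' P i hP.1
        have h2 := hxi' Q i hQ.1
        rw [hP.2] at h1
        rw [hQ.2, h1] at h2
        exact mul_left_cancel₀ hMF h2
      · have h1 := (hze' P i hP.1).1
        have h2 := (hze' Q i hQ.1).1
        rw [← hPQ, h1] at h2
        have h3 : ((M * M' i : ℕ) : E i) ≠ 0 := by
          exact_mod_cast mul_ne_zero hM (hM' i)
        exact congrFun (el_inj (b i) (mul_left_cancel₀ h3 h2)) k
    rw [← card_image_of_injOn hinj]
    refine tree K _ fun i f hf => ?_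
    obtain ⟨P₀, hP₀, rfl⟩ := mem_image.1 hf
    rw [hT', mem_filter] at hP₀
    -- the norms of the blocks of a point
    have hnorm : ∀ P ∈ T, ((∏ j with c j = c i, Algebra.norm ℤ (ze P j) : ℤ) : ℚ) =
        (∏ j with c j = c i, ((M * M' j : ℕ) : ℚ) ^ finrank ℚ (E j)) *
          Algebra.norm ℚ (MvPolynomial.eval P (G (c i))) := by
      intro P hP
      rw [← (hT P hP).1 (c i), map_prod, ← prod_mul_distrib]
      push_cast
      refine prod_congr rfl fun j _ => ?_
      rw [Algebra.coe_norm_int, (hze' P j hP).1, map_mul, norm_nf]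
      congr 1
      have h1 : ((M * M' j : ℕ) : E j) = algebraMap ℚ (E j) ((M * M' j : ℕ) : ℚ) := by
        rw [map_natCast]
      rw [h1, Algebra.norm_algebraMap]
      push_cast
      rfl
    have hR0 : (∏ j with c j = c i, Algebra.norm ℤ (ze P₀ j)) ≠ 0 := by
      intro h0
      have h1 := hnorm P₀ hP₀.1
      rw [h0] at h1
      have h2 : (∏ j with c j = c i, ((M * M' j : ℕ) : ℚ) ^ finrank ℚ (E j)) *
          Algebra.norm ℚ (MvPolynomial.eval P₀ (G (c i))) ≠ 0 := by
        refine mul_ne_zero (prod_ne_zero_iff.2 fun j _ => pow_ne_zero _ ?_) ?_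
        · exact_mod_cast mul_ne_zero hM (hM' j)
        · exact Algebra.norm_ne_zero_iff.2 ((hT P₀ hP₀.1).2.1.2 (c i))
      exact h2 (by rw [← h1]; simp)
    have hRX : |((∏ j with c j = c i, Algebra.norm ℤ (ze P₀ j) : ℤ) : ℝ)| ≤ (Cm * X) ^ N := by
      push_cast
      rw [abs_prod]
      have h1 : ∀ j, |((Algebra.norm ℤ (ze P₀ j) : ℤ) : ℝ)| ≤ (Cm * X) ^ finrank ℚ (E j) := by
        intro j
        refine (Pool.Agent.R366.NF.norm_le (ze P₀ j) (hze' P₀ j hP₀.1).2).trans ?_
        refine pow_le_pow_left₀ (mul_nonneg (hCb0 j) (by linarith)) ?_ _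
        exact mul_le_mul_of_nonneg_right (hCbm j) (by linarith)
      calc ∏ j with c j = c i, |((Algebra.norm ℤ (ze P₀ j) : ℤ) : ℝ)| ≤
            ∏ j with c j = c i, (Cm * X) ^ finrank ℚ (E j) :=
            prod_le_prod (fun j _ => abs_nonneg _) fun j _ => h1 j
        _ = (Cm * X) ^ ∑ j with c j = c i, finrank ℚ (E j) := prod_pow_eq_pow_sum _ _ _
        _ ≤ (Cm * X) ^ N := by
            refine pow_le_pow_right₀ hCmX ?_
            have h2 : ∑ j with c j = c i, finrank ℚ (E j) ≤ ∑ j, finrank ℚ (E j) :=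
              sum_le_sum_of_subset (filter_subset _ _)
            omega
    rw [hK]
    refine Nat.le_floor ?_
    refine (hdiv i ((Cm * X) ^ N) (one_le_pow₀ hCmX) _ hR0 hRX _ fun β hβ => ?_).trans ?_
    · obtain ⟨g, hg, rfl⟩ := mem_image.1 hβ
      rw [mem_filter] at hg
      obtain ⟨hg1, hg2⟩ := hg
      obtain ⟨P, hP, rfl⟩ := mem_image.1 hg1
      rw [hT', mem_filter] at hP
      refine ⟨?_, fun w => ?_⟩
      · have h1 : MvPolynomial.eval P (G (c i)) = MvPolynomial.eval P₀ (G (c i)) := by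
          refine eval_congr he (c i) (fun j => ?_) fun j hj l => ?_
          · have h1 := hxi' P j hP.1
            have h2 := hxi' P₀ j hP₀.1
            rw [hP.2] at h1
            rw [hP₀.2, h1] at h2
            exact mul_left_cancel₀ hMF h2
          · have h0 := hg2 j (hj i rfl)
            have h1 := (hze' P j hP.1).1
            have h2 := (hze' P₀ j hP₀.1).1
            rw [← h0, h1] at h2
            have h3 : ((M * M' j : ℕ) : E j) ≠ 0 := by
              exact_mod_cast mul_ne_zero hM (hM' j)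
            exact congrFun (el_inj (b j) (mul_left_cancel₀ h3 h2)) l
        have h2 : (∏ j with c j = c i, Algebra.norm ℤ (ze P j)) =
            ∏ j with c j = c i, Algebra.norm ℤ (ze P₀ j) := by
          have h3 := hnorm P hP.1
          rw [h1, ← hnorm P₀ hP₀.1] at h3
          exact_mod_cast h3
        have h4 : (Algebra.norm ℤ (ze P i)) ∣ ∏ j with c j = c i, Algebra.norm ℤ (ze P₀ j) := by
          rw [← h2]
          exact dvd_prod_of_mem (fun j => Algebra.norm ℤ (ze P j)) (by simp)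
        exact (dvd_norm' (ze P i)).trans (Int.cast_dvd_cast (α := 𝓞 (E i)) _ _ h4)
      · refine ((hze' P i hP.1).2 w).trans ?_
        have h1 : Cb i * X ≤ Cm * X := mul_le_mul_of_nonneg_right (hCbm i) (by linarith)
        exact h1.trans (le_self_pow₀ hCmX (by omega))
    · exact mul_le_mul_of_nonneg_right (hCs0 i) (by positivity)
  have h1 := card_le_mul_card_image T (K ^ q) hfib
  have h2 : (T.card : ℝ) ≤ (K : ℝ) ^ q * (T.image xi).card := by exact_mod_cast h1
  have h3 : (K : ℝ) ≤ Cs * ((Cm * X) ^ N) ^ δ₂ := Nat.floor_le (by positivity)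
  have hX0 : 0 < X := by linarith
  calc (T.card : ℝ) ≤ (K : ℝ) ^ q * (T.image xi).card := h2
    _ ≤ (Cs * ((Cm * X) ^ N) ^ δ₂) ^ q * (C₁ * Y * (M * X) ^ (δ / 2)) := by
        gcongr
    _ = (Cs * (Cm ^ N) ^ δ₂) ^ q * (C₁ * (M : ℝ) ^ (δ / 2)) * Y *
          (((X ^ N) ^ δ₂) ^ q * X ^ (δ / 2)) := by
        rw [mul_pow Cm X N, Real.mul_rpow (by positivity) (by positivity),
          Real.mul_rpow (by positivity) hX0.le, ← mul_assoc Cs, mul_pow (Cs * (Cm ^ N) ^ δ₂)]
        ring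
    _ ≤ (Cs * (Cm ^ N) ^ δ₂) ^ q * (C₁ * (M : ℝ) ^ (δ / 2)) * Y * X ^ δ := by
        have h4 : ((X ^ N) ^ δ₂) ^ q * X ^ (δ / 2) ≤ X ^ δ := by
          rw [← Real.rpow_natCast X N, ← Real.rpow_mul hX0.le, ← Real.rpow_natCast _ q,
            ← Real.rpow_mul hX0.le, ← Real.rpow_add hX0]
          refine Real.rpow_le_rpow_of_exponent_le hX ?_
          have h5 : (N : ℝ) * δ₂ * q ≤ δ / 2 := by
            rw [hδ₂]
            have h6 : (N : ℝ) * (δ / (2 * (q + 1) * N)) * q = δ / 2 * (q / (q + 1)) := by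
              field_simp
            rw [h6]
            have h7 : (q : ℝ) / (q + 1) ≤ 1 := by
              rw [div_le_one (by positivity)]
              linarith
            nlinarith
          linarith
        exact mul_le_mul_of_nonneg_left h4 (by positivity)

end

end Pool.Agent.L5helper4.NT
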