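import Pool.Agent.L5helper4.NT.Glo
import Pool.Agent.L5helper4.NT.Var

/-!
Towers of norm equations in Cox coordinates: the upper bound.
-/

set_option autoImplicit false
set_option linter.unusedSectionVars false

namespace Pool.Agent.L5helper4.NT

open Finset NumberField Module

section

variable {V A J : Type} [Fintype V] [Fintype A] [Fintype J] {π : V → A} {dg : A → J → ℤ}
  {F : Type} [Field F]

theorem act_act (l l' : J → F) (P : V → F) :
    act π dg l (act π dg l' P) = act π dg (fun j => l j * l' j) P := by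
  funext x
  unfold act
  rw [← mul_assoc, ← prod_mul_distrib]
  congr 1
  exact prod_congr rfl fun j _ => (mul_zpow _ _ _).symm

theorem act_one (P : V → F) : act π dg (fun _ => 1) P = P := by
  funext x
  unfold act
  simp

/-- the class of a tuple -/
def cls (π : V → A) (dg : A → J → ℤ) (P : V → F) : Set (V → F) :=
  {Q | ∃ l : J → F, (∀ j, l j ≠ 0) ∧ Q = act π dg l P}

theorem cls_act {l : J → F} (hl : ∀ j, l j ≠ 0) (P : V → F) :
    cls π dg (act π dg l P) = cls π dg P := by
  ext Q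
  constructor
  · rintro ⟨l', hl', rfl⟩
    exact ⟨fun j => l' j * l j, fun j => mul_ne_zero (hl' j) (hl j), act_act _ _ _⟩
  · rintro ⟨l', hl', rfl⟩
    refine ⟨fun j => l' j * (l j)⁻¹, fun j => mul_ne_zero (hl' j) (inv_ne_zero (hl j)), ?_⟩
    rw [act_act]
    congr 1
    funext j
    rw [mul_assoc, inv_mul_cancel₀ (hl j), mul_one]

end

variable {n q p r : ℕ} {m : Fin q → ℕ}

/-- `L` is big: a multiple is a combination of all the degrees with positive coefficients -/
def Big (dg : Fin n ⊕ Fin q → Fin p → ℤ) (L : Fin p → ℤ) : Prop :=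
  ∃ (k : ℕ) (d : Fin n ⊕ Fin q → ℕ), (∀ a, 1 ≤ d a) ∧ ∀ j, (k : ℤ) * L j = ∑ a, (d a : ℤ) * dg a j

/-- the real numbers `t` such that `t L + K` is effective -/
def Eff (dg : Fin n ⊕ Fin q → Fin p → ℤ) (L : Fin p → ℤ) : Set ℝ :=
  {t | ∃ d : Fin n ⊕ Fin q → ℝ, (∀ a, 0 ≤ d a) ∧
    ∀ j, t * L j = ∑ i, (dg (Sum.inl i) j : ℝ) + ∑ a, d a * dg a j}

theorem Eff_nonempty {dg : Fin n ⊕ Fin q → Fin p → ℤ} {L : Fin p → ℤ} (hb : Big dg L) :
    (Eff dg L).Nonempty := by
  obtain ⟨k, d, hd, hk⟩ := hb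
  refine ⟨k, fun a => d a - (if a.isLeft then 1 else 0), fun a => ?_, fun j => ?_⟩
  · have h1 : (1 : ℝ) ≤ d a := by exact_mod_cast hd a
    show (0 : ℝ) ≤ d a - (if a.isLeft then 1 else 0)
    split_ifs <;> linarith
  · have h1 : ((k : ℝ)) * L j = ∑ a, (d a : ℝ) * dg a j := by exact_mod_cast hk j
    rw [h1, Fintype.sum_sum_type, Fintype.sum_sum_type, ← add_assoc, ← sum_add_distrib]
    congr 1
    · refine sum_congr rfl fun i _ => ?_
      simp
      ring
    · refine sum_congr rfl fun i _ => ?_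
      simp

theorem Eff_nonneg {dg : Fin n ⊕ Fin q → Fin p → ℤ} {L : Fin p → ℤ}
    (hn : 0 < n) {S : Set (Set (Fin n ⊕ Fin q))} (hS : Complete dg S) (hb : Big dg L) {t : ℝ}
    (ht : t ∈ Eff dg L) : 0 ≤ t := by
  obtain ⟨k, d, hd, hk⟩ := hb
  obtain ⟨e, he, ht⟩ := ht
  obtain ⟨φ, hφ⟩ := exists_pos hS
  by_contra hneg
  push Not at hneg
  set Φ : ℝ := ∑ j, φ j * L j with hΦ
  have h1 : (k : ℝ) * Φ = ∑ a, (d a : ℝ) * ∑ j, φ j * dg a j := by
    rw [hΦ, mul_sum]
    calc ∑ j, (k : ℝ) * (φ j * L j) = ∑ j, φ j * ∑ a, (d a : ℝ) * dg a j := by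
          refine sum_congr rfl fun j _ => ?_
          have h2 : ((k : ℝ)) * L j = ∑ a, (d a : ℝ) * dg a j := by exact_mod_cast hk j
          rw [← h2]
          ring
      _ = ∑ j, ∑ a, (d a : ℝ) * (φ j * dg a j) := by
          refine sum_congr rfl fun j _ => ?_
          rw [mul_sum]
          exact sum_congr rfl fun a _ => by ring
      _ = ∑ a, ∑ j, (d a : ℝ) * (φ j * dg a j) := sum_comm
      _ = _ := by
          refine sum_congr rfl fun a _ => ?_
          rw [mul_sum]
  have h2 : t * Φ = ∑ i, ∑ j, φ j * dg (Sum.inl i) j + ∑ a, e a * ∑ j, φ j * dg a j := by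
    rw [hΦ, mul_sum]
    calc ∑ j, t * (φ j * L j) = ∑ j, φ j * (∑ i, (dg (Sum.inl i) j : ℝ) + ∑ a, e a * dg a j) := by
          refine sum_congr rfl fun j _ => ?_
          rw [← ht j]
          ring
      _ = ∑ j, (∑ i, φ j * dg (Sum.inl i) j + ∑ a, e a * (φ j * dg a j)) := by
          refine sum_congr rfl fun j _ => ?_
          rw [mul_add, mul_sum, mul_sum]
          congr 1
          exact sum_congr rfl fun a _ => by ring
      _ = ∑ j, ∑ i, φ j * dg (Sum.inl i) j + ∑ j, ∑ a, e a * (φ j * dg a j) := sum_add_distrib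
      _ = _ := by
          rw [sum_comm, sum_comm (s := univ) (t := univ) (f := fun j a => e a * (φ j * dg a j))]
          congr 1
          exact sum_congr rfl fun a _ => by rw [mul_sum]
  have h3 : 0 ≤ t * Φ := by
    rw [h2]
    exact add_nonneg (sum_nonneg fun i _ => zero_le_one.trans (hφ _))
      (sum_nonneg fun a _ => mul_nonneg (he a) (zero_le_one.trans (hφ a)))
  have h4 : 0 < (k : ℝ) * Φ := by
    rw [h1]
    have h5 := single_le_sum (f := fun a => (d a : ℝ) * ∑ j, φ j * dg a j)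
      (fun a _ => mul_nonneg (Nat.cast_nonneg _) (zero_le_one.trans (hφ a)))
      (mem_univ (Sum.inl ⟨0, hn⟩))
    have h6 : (1 : ℝ) ≤ d (Sum.inl ⟨0, hn⟩) := by exact_mod_cast hd _
    have h7 := hφ (Sum.inl ⟨0, hn⟩)
    refine lt_of_lt_of_le ?_ h5
    show 0 < (d (Sum.inl ⟨0, hn⟩) : ℝ) * _
    nlinarith
  have h5 : 0 < Φ := by
    by_contra h6
    push Not at h6
    have := mul_nonpos_of_nonneg_of_nonpos (Nat.cast_nonneg (α := ℝ) k) h6
    linarith
  have := mul_neg_of_neg_of_pos hneg h5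
  linarith

/-- all the points in a set with bounded finite subsets -/
theorem finite_of_bound {α : Type} {s : Set α} {K : ℝ}
    (h : ∀ T : Finset α, (∀ x ∈ T, x ∈ s) → (T.card : ℝ) ≤ K) : s.Finite ∧ (s.ncard : ℝ) ≤ K := by
  have hf : s.Finite := by
    by_contra hinf
    obtain ⟨T, hT, hc⟩ := (Set.not_finite.1 hinf : s.Infinite).exists_subset_card_eq (⌊K⌋₊ + 1)
    have h1 := h T fun x hx => hT hx
    rw [hc] at h1
    have h2 := Nat.lt_floor_add_one K
    push_cast at h1
    linarith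
  refine ⟨hf, ?_⟩
  rw [Set.ncard_eq_toFinset_card s hf]
  exact h _ fun x hx => by simpa using hx

section

variable (F : Type) [Field F] [NumberField F] (E : Fin q → Type) [∀ i, Field (E i)]
  [∀ i, NumberField (E i)] [∀ i, Algebra F (E i)] (b : ∀ i, Basis (Fin (m i)) F (E i))
  (c : Fin q → Fin r) (G : Fin r → MvPolynomial (Vr n m) F) (dg : Fin n ⊕ Fin q → Fin p → ℤ)

/-- the points of the open subset of height at most `T` -/
def pts (L : Fin p → ℤ) (T : ℝ) : Set (Set (Vr n m → F)) :=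
  {C | ∃ P : Vr n m → F, OnX b c G P ∧ InU G P ∧ C = cls pr dg P ∧
    (Height.mulHeight fun e : Mon (V := Vr n m) pr dg L => val P e.1) ≤ T}

variable {F E b c G dg}

/-- norms of the integral coordinates -/
theorem norm_prod_place (x : F) :
    |((Algebra.norm ℚ x : ℚ) : ℝ)| = ∏ w : InfinitePlace F, w x ^ w.mult := by
  have h := InfinitePlace.prod_eq_abs_norm x
  rw [h]
  push_cast
  rfl

theorem main (hn : 0 < n) {S : Set (Set (Fin n ⊕ Fin q))} (hS : Complete dg S)
    (hfr : ∀ j, Free dg S (Pi.single j 1)) (he : Earlier c G) (hG : Homog c G dg)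
    {L : Fin p → ℤ} (hL : Free dg S L) (hb : Big dg L) {ε : ℝ} (hε : 0 < ε) :
    ∃ C : ℝ, ∀ T : ℝ, 1 ≤ T → (pts F E b c G dg L T).Finite ∧
      ((pts F E b c G dg L T).ncard : ℝ) ≤ C * T ^ (sInf (Eff dg L) + ε) := by
  classical
  obtain ⟨t, ht, htε⟩ := exists_lt_of_csInf_lt (Eff_nonempty hb)
    (show sInf (Eff dg L) < sInf (Eff dg L) + ε / 2 by linarith)
  have ht0 : 0 ≤ t := Eff_nonneg hn hS hb ht
  obtain ⟨e, he0, hte⟩ := ht
  obtain ⟨k, d, hd, hk⟩ := hb
  obtain ⟨M, c₀, hM, hc₀, hglo⟩ := glo (V := Vr n m) (π := pr) F hS hfr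
  set D : ℝ := ((finrank ℚ F : ℕ) : ℝ) with hD
  have hDn : 1 ≤ finrank ℚ F := Module.finrank_pos (R := ℚ) (M := F)
  have hD1 : 1 ≤ D := by
    rw [hD]
    exact_mod_cast hDn
  have hM1 : (1 : ℝ) ≤ M := by exact_mod_cast Nat.pos_of_ne_zero hM
  have hMF : (M : F) ≠ 0 := by exact_mod_cast hM
  set c₁ : ℝ := Real.log M + c₀ with hc₁
  have hlM : 0 ≤ Real.log M := Real.log_nonneg hM1
  have hc₁0 : 0 ≤ c₁ := by positivity
  set c₂ : ℝ := c₀ * ∑ j, |(L j : ℝ)| with hc₂
  have hc₂0 : 0 ≤ c₂ := mul_nonneg hc₀ (sum_nonneg fun j _ => abs_nonneg _)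
  set Sd : ℝ := ∑ a, (d a : ℝ) with hSd
  set Se : ℝ := ∑ a, e a with hSe
  have hSd0 : 0 ≤ Sd := sum_nonneg fun a _ => Nat.cast_nonneg _
  have hSe0 : 0 ≤ Se := sum_nonneg fun a _ => he0 a
  set δ : ℝ := ε / (2 * (k + t + 1)) with hδ
  have hδ0 : 0 < δ := by positivity
  obtain ⟨C, hC, hcnt⟩ := cnt b c G he hM hδ0
  set CY : ℝ := Real.exp (n * D * Real.log M + t * c₂ + D * c₁ * Se + D * n * c₀) with hCY
  set CX : ℝ := Real.exp (k * c₂ + c₁ * Sd + c₀) with hCX
  have hCY1 : 1 ≤ CY := Real.one_le_exp (by positivity)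
  have hCX1 : 1 ≤ CX := Real.one_le_exp (by positivity)
  refine ⟨C * CY * (CX * CY) ^ δ, fun T hT => ?_⟩
  have hT0 : 0 < T := by linarith
  have hlT : 0 ≤ Real.log T := Real.log_nonneg hT
  set X : ℝ := CX * CY * T ^ ((k : ℝ) + t) with hX
  set Y : ℝ := CY * T ^ t with hY
  have hTt : 1 ≤ T ^ t := Real.one_le_rpow hT ht0
  have hY1 : 1 ≤ Y := by
    rw [hY]
    nlinarith
  have hYX : Y ≤ X := by
    rw [hY, hX]
    have h1 : T ^ t ≤ T ^ ((k : ℝ) + t) := Real.rpow_le_rpow_of_exponent_le hT (by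
      have : (0 : ℝ) ≤ k := Nat.cast_nonneg _
      linarith)
    have h2 : CY ≤ CX * CY := by nlinarith
    have h3 : 0 ≤ T ^ t := by positivity
    calc CY * T ^ t ≤ (CX * CY) * T ^ t := mul_le_mul_of_nonneg_right h2 h3
      _ ≤ _ := mul_le_mul_of_nonneg_left h1 (by positivity)
  set Z : Set (Vr n m → F) := {P | OnX b c G P ∧ InU G P ∧
    (∀ x, ∃ z : 𝓞 F, (z : F) = (M : F) * P x) ∧ (∀ (w : InfinitePlace F) x, w (P x) ≤ X) ∧
    |((∏ i, Algebra.norm ℚ ((M : F) * P (Sum.inl i)) : ℚ) : ℝ)| ≤ Y} with hZ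
  have hZb := finite_of_bound (s := Z) (K := C * Y * X ^ δ) fun T' hT' =>
    hcnt X Y hY1 hYX T' fun P hP => hT' P hP
  have hsub : pts F E b c G dg L T ⊆ (fun P => cls pr dg P) '' Z := by
    rintro _ ⟨P, h1, h2, rfl, h3⟩
    obtain ⟨l, hl, B, hg1, hg2, hg3⟩ := hglo P (blocks_ne h1 h2)
    have h1' := OnX_act hG hl h1
    have h2' := InU_act hG hl h2
    refine ⟨act pr dg l P, ⟨h1', h2', hg1, ?_⟩, cls_act hl P⟩
    set P' := act pr dg l P with hP'
    set h : Fin n ⊕ Fin q → ℝ := fun a => ∑ j, B j * dg a j with hh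
    set hLL : ℝ := ∑ j, B j * L j with hhL
    have hg2' : ∀ (w : InfinitePlace F) x, w (P' x) ≤ Real.exp (h (pr x) + c₀) := hg2
    have hnx : ∀ x, |((Algebra.norm ℚ ((M : F) * P' x) : ℚ) : ℝ)| ≤
        Real.exp (D * (Real.log M + h (pr x) + c₀)) := by
      intro x
      rw [norm_prod_place]
      calc ∏ w : InfinitePlace F, w ((M : F) * P' x) ^ w.mult ≤
            ∏ w : InfinitePlace F, Real.exp (Real.log M + h (pr x) + c₀) ^ w.mult := by
            refine prod_le_prod (fun w _ => pow_nonneg (apply_nonneg _ _) _) fun w _ =>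
              pow_le_pow_left₀ (apply_nonneg _ _) ?_ _
            have h4 : w (M : F) = M := by simp
            rw [map_mul, h4, add_assoc, Real.exp_add, Real.exp_log (by linarith)]
            exact mul_le_mul_of_nonneg_left (hg2' w x) (by linarith)
        _ = Real.exp (D * (Real.log M + h (pr x) + c₀)) := by
            rw [prod_pow_eq_pow_sum, InfinitePlace.sum_mult_eq, hD, Real.exp_nat_mul]
    have hlow : ∀ a, -c₁ ≤ h a := by
      intro a
      obtain ⟨x, rfl, hx⟩ := blocks_ne h1' h2' a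
      obtain ⟨z, hz⟩ := hg1 x
      have hz0 : z ≠ 0 := by
        rintro rfl
        have : (M : F) * P' x = 0 := by rw [← hz]; simp
        exact mul_ne_zero hMF hx this
      have h4 : (1 : ℝ) ≤ |((Algebra.norm ℚ ((M : F) * P' x) : ℚ) : ℝ)| := by
        rw [← hz, ← Algebra.coe_norm_int]
        have h5 := Int.one_le_abs (norm_ne hz0)
        have h6 : (1 : ℝ) ≤ ((|Algebra.norm ℤ z| : ℤ) : ℝ) := by exact_mod_cast h5
        rw [Int.cast_abs] at h6
        push_cast
        exact h6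
      have h5 := h4.trans (hnx x)
      rw [Real.one_le_exp_iff] at h5
      have h6 : 0 ≤ Real.log M + h (pr x) + c₀ := by
        by_contra h7
        push Not at h7
        have := mul_neg_of_pos_of_neg (by linarith : 0 < D) h7
        linarith
      rw [hc₁]
      linarith
    have hlogT : D * hLL ≤ Real.log T + c₂ := by
      have h4 := hg3 L hL
      have : Finite (Mon (V := Vr n m) pr dg L) := mon_finite hS L
      have h5 := Real.log_le_log (Height.mulHeight_pos _) h3
      linarith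
    have hLL' : hLL ≤ (Real.log T + c₂) / D := by
      rw [le_div_iff₀ (by linarith), mul_comm]
      exact hlogT
    have hkL : (k : ℝ) * hLL = ∑ a, (d a : ℝ) * h a := by
      rw [hhL, mul_sum]
      calc ∑ j, (k : ℝ) * (B j * L j) = ∑ j, ∑ a, (d a : ℝ) * (B j * dg a j) := by
            refine sum_congr rfl fun j _ => ?_
            have h4 : ((k : ℝ)) * L j = ∑ a, (d a : ℝ) * dg a j := by exact_mod_cast hk j
            calc (k : ℝ) * (B j * L j) = B j * ((k : ℝ) * L j) := by ring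
              _ = _ := by
                  rw [h4, mul_sum]
                  exact sum_congr rfl fun a _ => by ring
        _ = ∑ a, ∑ j, (d a : ℝ) * (B j * dg a j) := sum_comm
        _ = _ := sum_congr rfl fun a _ => by rw [hh, mul_sum]
    have htL : t * hLL = ∑ i, h (Sum.inl i) + ∑ a, e a * h a := by
      rw [hhL, mul_sum]
      calc ∑ j, t * (B j * L j) = ∑ j, (∑ i, B j * dg (Sum.inl i) j +
            ∑ a, e a * (B j * dg a j)) := by
            refine sum_congr rfl fun j _ => ?_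
            calc t * (B j * L j) = B j * (t * L j) := by ring
              _ = _ := by
                  rw [hte j, mul_add, mul_sum, mul_sum]
                  congr 1
                  exact sum_congr rfl fun a _ => by ring
        _ = ∑ j, ∑ i, B j * dg (Sum.inl i) j + ∑ j, ∑ a, e a * (B j * dg a j) :=
            sum_add_distrib
        _ = _ := by
            rw [sum_comm, sum_comm (s := univ) (t := univ)
              (f := fun j a => e a * (B j * dg a j))]
            congr 1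
            exact sum_congr rfl fun a _ => by rw [hh, mul_sum]
    have hup : ∀ a, h a ≤ k * hLL + c₁ * Sd := by
      intro a
      have h4 : ∀ a', 0 ≤ (d a' : ℝ) * (h a' + c₁) := fun a' =>
        mul_nonneg (Nat.cast_nonneg _) (by linarith [hlow a'])
      have h5 := single_le_sum (f := fun a' => (d a' : ℝ) * (h a' + c₁)) (fun a' _ => h4 a')
        (mem_univ a)
      have h6 : ∑ a', (d a' : ℝ) * (h a' + c₁) = k * hLL + c₁ * Sd := by
        rw [hkL, hSd, mul_sum, ← sum_add_distrib]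
        exact sum_congr rfl fun a' _ => by ring
      rw [h6] at h5
      have h7 : (1 : ℝ) ≤ d a := by exact_mod_cast hd a
      have h8 := hlow a
      have h9 : (d a : ℝ) * (h a + c₁) ≤ k * hLL + c₁ * Sd := h5
      nlinarith
    refine ⟨fun w x => ?_, ?_⟩
    · refine (hg2' w x).trans ?_
      rw [hX, hCX]
      have h4 := hup (pr x)
      have h5 : (k : ℝ) * hLL ≤ k * (Real.log T + c₂) := by
        refine mul_le_mul_of_nonneg_left (hLL'.trans ?_) (Nat.cast_nonneg _)
        exact div_le_self (by positivity) hD1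
      have h6 : Real.exp (h (pr x) + c₀) ≤ Real.exp (k * c₂ + c₁ * Sd + c₀) * T ^ (k : ℝ) := by
        rw [Real.rpow_def_of_pos hT0, ← Real.exp_add]
        refine Real.exp_le_exp.2 ?_
        nlinarith
      refine h6.trans ?_
      have h7 : T ^ (k : ℝ) ≤ T ^ ((k : ℝ) + t) := Real.rpow_le_rpow_of_exponent_le hT (by linarith)
      calc Real.exp (k * c₂ + c₁ * Sd + c₀) * T ^ (k : ℝ) ≤
            Real.exp (k * c₂ + c₁ * Sd + c₀) * T ^ ((k : ℝ) + t) :=
            mul_le_mul_of_nonneg_left h7 (Real.exp_pos _).le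
        _ ≤ Real.exp (k * c₂ + c₁ * Sd + c₀) * CY * T ^ ((k : ℝ) + t) := by
            have h8 : 0 ≤ T ^ ((k : ℝ) + t) := by positivity
            refine mul_le_mul_of_nonneg_right ?_ h8
            exact le_mul_of_one_le_right (Real.exp_pos _).le hCY1
    · have h4 : |((∏ i, Algebra.norm ℚ ((M : F) * P' (Sum.inl i)) : ℚ) : ℝ)| ≤
          ∏ i, Real.exp (D * (Real.log M + h (Sum.inl i) + c₀)) := by
        push_cast
        rw [abs_prod]
        exact prod_le_prod (fun i _ => abs_nonneg _) fun i _ => hnx (Sum.inl i)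
      refine h4.trans ?_
      rw [← Real.exp_sum, hY, hCY, Real.rpow_def_of_pos hT0, ← Real.exp_add]
      refine Real.exp_le_exp.2 ?_
      have h5 : ∑ i : Fin n, D * (Real.log M + h (Sum.inl i) + c₀) =
          n * D * Real.log M + D * ∑ i, h (Sum.inl i) + D * n * c₀ := by
        rw [← mul_sum, sum_add_distrib, sum_add_distrib, sum_const, sum_const, card_univ,
          Fintype.card_fin, nsmul_eq_mul, nsmul_eq_mul]
        ring
      have h6 : -(c₁ * Se) ≤ ∑ a, e a * h a := by
        rw [hSe, mul_sum, ← sum_neg_distrib]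
        refine sum_le_sum fun a _ => ?_
        have := mul_le_mul_of_nonneg_left (hlow a) (he0 a)
        linarith
      have h7 : ∑ i, h (Sum.inl i) ≤ t * hLL + c₁ * Se := by linarith
      have h8 : D * ∑ i, h (Sum.inl i) ≤ t * (Real.log T + c₂) + D * c₁ * Se := by
        have h9 := mul_le_mul_of_nonneg_left h7 (by linarith : 0 ≤ D)
        have h10 := mul_le_mul_of_nonneg_left hlogT ht0
        nlinarith
      rw [h5]
      linarith
  refine ⟨(hZb.1.image _).subset hsub, ?_⟩
  have h1 : ((pts F E b c G dg L T).ncard : ℝ) ≤ Z.ncard := by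
    exact_mod_cast (Set.ncard_le_ncard hsub (hZb.1.image _)).trans (Set.ncard_image_le hZb.1)
  refine h1.trans (hZb.2.trans ?_)
  rw [hY, hX]
  have h2 : (CX * CY * T ^ ((k : ℝ) + t)) ^ δ = (CX * CY) ^ δ * T ^ (((k : ℝ) + t) * δ) := by
    rw [Real.mul_rpow (by positivity) (by positivity), ← Real.rpow_mul hT0.le]
  rw [h2]
  have h3 : T ^ t * T ^ (((k : ℝ) + t) * δ) ≤ T ^ (sInf (Eff dg L) + ε) := by
    rw [← Real.rpow_add hT0]
    refine Real.rpow_le_rpow_of_exponent_le hT ?_
    have h4 : ((k : ℝ) + t) * δ ≤ ε / 2 := by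
      rw [hδ, mul_div_assoc', div_le_iff₀ (by positivity)]
      have : (0 : ℝ) ≤ k := Nat.cast_nonneg _
      nlinarith
    linarith
  calc C * (CY * T ^ t) * ((CX * CY) ^ δ * T ^ (((k : ℝ) + t) * δ)) =
        C * CY * (CX * CY) ^ δ * (T ^ t * T ^ (((k : ℝ) + t) * δ)) := by ring
    _ ≤ _ := mul_le_mul_of_nonneg_left h3 (by positivity)

end

end Pool.Agent.L5helper4.NT
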